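import Pool.Agent.Run7.h336.Jen
import Pool.Agent.TH809.TP.App
import Pool.Agent.TH809.TP.Gen

set_option autoImplicit false

/-!
# Multiple positivity of order up to `exp (κ n)`, `κ < 4`: the direct half
-/

namespace Run7.h402.TP3

open Complex Filter Topology Polynomial
open Pool.Agent.TH809.TP (TP mnr TP_app TP_zero TP_const TP_scale TP_realrooted TP_limit zeros_of_TP)
open Pool.Agent.H24R2.JP (FF XX gam jensen Hyperbolic low_iter_add)
open Pool.Agent.H986R2.K4 (ZB)
open Run7.h336.JS (RealUpTo realT jenEval)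

/-- Taylor coefficients of the `n`-th derivative of `FF` -/
noncomputable def cZ (n j : ℕ) : ℝ := gam (n + j) / (j.factorial : ℝ)

theorem cZ_pos (n j : ℕ) : 0 < cZ n j := by
  unfold cZ
  have := Pool.Agent.H24R2.JP.gamT.1 (n + j)
  positivity

theorem hasSum_iter (n : ℕ) (x : ℂ) :
    HasSum (fun i => ((cZ n i : ℝ) : ℂ) * x ^ i) (iteratedDeriv n FF x) := by
  obtain ⟨hd, -, -, h0⟩ := Pool.Agent.H24R2.JP.b1
  have hD : Differentiable ℂ (iteratedDeriv n FF) :=
    (hd.contDiff (n := ⊤)).differentiable_iteratedDeriv n (by exact_mod_cast WithTop.coe_lt_top _)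
  have hs := Complex.hasSum_taylorSeries_of_entire hD 0 x
  simp only [low_iter_add, h0, sub_zero] at hs
  have e : (fun i => ((cZ n i : ℝ) : ℂ) * x ^ i) =
      fun i : ℕ => ((i.factorial : ℂ))⁻¹ • x ^ i • ((gam (n + i) : ℝ) : ℂ) := by
    funext i
    unfold cZ
    rw [smul_eq_mul, smul_eq_mul]
    push_cast
    ring
  rw [e]
  exact hs

theorem iter_ne (n : ℕ) {x : ℝ} (hx : 0 ≤ x) : iteratedDeriv n FF (x : ℂ) ≠ 0 := by
  intro hz
  have hs := Complex.hasSum_re (hasSum_iter n (x : ℂ))
  have e2 : ∀ i, ((((cZ n i : ℝ) : ℂ) * ((x : ℝ) : ℂ) ^ i).re) = cZ n i * x ^ i := by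
    intro i
    rw [← Complex.ofReal_pow, ← Complex.ofReal_mul, Complex.ofReal_re]
  simp only [e2, hz, Complex.zero_re] at hs
  have h1 := le_hasSum hs 0 (fun j _ => mul_nonneg (cZ_pos n j).le (pow_nonneg hx j))
  rw [pow_zero, mul_one] at h1
  exact absurd h1 (not_le.2 (cZ_pos n 0))

/-- Real zeros up to `exp (κ' n)` give minors of order up to `exp (κ n)`, `2 κ < κ'`. -/
theorem TP_of_real {κ κ' : ℝ} (hκ : 2 * κ ≤ κ') {n : ℕ}
    (h : ∀ w : ℂ, ‖w‖ ≤ Real.exp (κ' * n) → iteratedDeriv n FF w = 0 → w.im = 0)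
    {m : ℕ} (hm : (m : ℝ) ≤ Real.exp (κ * n)) : TP m (cZ n) := by
  rcases Nat.eq_zero_or_pos m with rfl | hm0
  · exact TP_zero _
  have hm1 : (1 : ℝ) ≤ m := by exact_mod_cast hm0
  have hn0 : (0 : ℝ) ≤ n := Nat.cast_nonneg n
  have hR : ((m : ℝ) + 1) ^ 2 / 4 ≤ Real.exp (κ' * n) := by
    have h1 : ((m : ℝ) + 1) ^ 2 / 4 ≤ (m : ℝ) ^ 2 := by nlinarith
    have h2 : (m : ℝ) ^ 2 ≤ Real.exp (κ * n) ^ 2 := pow_le_pow_left₀ (by linarith) hm 2
    have h3 : Real.exp (κ * n) ^ 2 = Real.exp (2 * κ * n) := by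
      rw [← Real.exp_nat_mul]
      congr 1
      push_cast
      ring
    have h4 : Real.exp (2 * κ * n) ≤ Real.exp (κ' * n) :=
      Real.exp_le_exp.2 (mul_le_mul_of_nonneg_right hκ hn0)
    linarith
  refine TP_app Pool.Agent.H24R2.JP.der Pool.Agent.H24R2.JP.gl Pool.Agent.H24R2.JP.goodT hm0 hR
    (n := n) ?_ (cZ_pos n 0) ?_
  · intro j
    rw [Pool.Agent.H24R2.JP.b1.2.2.2 (n + j)]
    congr 1
    unfold cZ
    have hj : (j.factorial : ℝ) ≠ 0 := by exact_mod_cast j.factorial_ne_zero
    rw [mul_div_cancel₀ _ hj]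
  · intro w hw h0
    have him := h w hw h0
    refine ⟨him, ?_⟩
    by_contra hre
    push Not at hre
    have : w = ((w.re : ℝ) : ℂ) := by apply Complex.ext <;> simp [him]
    rw [this] at h0
    exact iter_ne n hre.le h0

/-- Under the Riemann hypothesis all minors are nonnegative. -/
theorem TP_of_RH (hRH : RiemannHypothesis) (m n : ℕ) : TP m (cZ n) := by
  have hhyp : ∀ d : ℕ, Hyperbolic (jensen d n) := fun d => Pool.Agent.H24R2.JP.rh1T hRH d n
  have hcoef : ∀ d j : ℕ, (jensen d n).coeff j =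
      if j ≤ d then (d.choose j : ℝ) * gam (n + j) else 0 := by
    intro d j
    unfold jensen
    rw [Polynomial.finsetSum_coeff]
    simp only [Polynomial.coeff_C_mul_X_pow]
    split_ifs with hj
    · rw [Finset.sum_eq_single j]
      · rw [if_pos rfl]
      · intro i _ hij
        rw [if_neg (Ne.symm hij)]
      · intro hcon
        exfalso
        apply hcon
        rw [Finset.mem_range]
        omega
    · apply Finset.sum_eq_zero
      intro i hi
      rw [Finset.mem_range] at hi
      rw [if_neg (by omega)]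
  have hTP : ∀ d : ℕ, TP m (fun j => 1 * ((d : ℝ)⁻¹) ^ j * (jensen d n).coeff j) := by
    intro d
    rcases Nat.eq_zero_or_pos d with rfl | hd0
    · have h1 : (jensen 0 n) = C (gam n) := by
        unfold jensen
        simp
      rw [h1]
      have h2 : 0 < gam n := Pool.Agent.H24R2.JP.gamT.1 n
      have h3 : (fun j => 1 * (((0 : ℕ) : ℝ)⁻¹) ^ j * (C (gam n) : ℝ[X]).coeff j) =
          (C (gam n) : ℝ[X]).coeff := by
        funext j
        rcases j with _ | j
        · simp
        · simp [Polynomial.coeff_C]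
      rw [h3]
      exact TP_const h2.le m
    · apply TP_scale zero_le_one (by positivity)
      have hlead : (jensen d n).coeff d = gam (n + d) := by
        rw [hcoef, if_pos le_rfl, Nat.choose_self]
        simp
      have hpos : 0 < gam (n + d) := Pool.Agent.H24R2.JP.gamT.1 (n + d)
      have hnd : (jensen d n).natDegree = d := by
        apply Polynomial.natDegree_eq_of_le_of_coeff_ne_zero
        · rw [Polynomial.natDegree_le_iff_coeff_eq_zero]
          intro N hN
          rw [hcoef, if_neg (by omega)]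
        · rw [hlead]
          exact hpos.ne'
      refine TP_realrooted m d _ hnd ?_ ?_
      · rw [Polynomial.leadingCoeff, hnd, hlead]
        exact hpos.le
      · intro z hz
        have him := hhyp d z hz
        refine ⟨him, ?_⟩
        by_contra hre
        push Not at hre
        have hz2 : z = ((z.re : ℝ) : ℂ) := by apply Complex.ext <;> simp [him]
        rw [hz2] at hz
        have h5 : aeval ((z.re : ℝ) : ℂ) (jensen d n) = (((jensen d n).eval z.re : ℝ) : ℂ) := by
          have h10 := Polynomial.aeval_algebraMap_apply ℂ z.re (jensen d n)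
          simpa using h10
        rw [h5] at hz
        have h6 : (jensen d n).eval z.re = 0 := by exact_mod_cast hz
        unfold jensen at h6
        rw [Polynomial.eval_finsetSum] at h6
        have h7 : 0 < ∑ j ∈ Finset.range (d + 1),
            (C ((d.choose j : ℝ) * gam (n + j)) * X ^ j : ℝ[X]).eval z.re := by
          apply Finset.sum_pos
          · intro j hj
            rw [Finset.mem_range] at hj
            rw [Polynomial.eval_mul, Polynomial.eval_C, Polynomial.eval_pow, Polynomial.eval_X]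
            have h8 : (0 : ℝ) < d.choose j := by exact_mod_cast Nat.choose_pos (by omega)
            have h9 := Pool.Agent.H24R2.JP.gamT.1 (n + j)
            positivity
          · exact ⟨0, by simp⟩
        linarith
  refine TP_limit (Filter.Eventually.of_forall hTP) fun j => ?_
  have h1 : Tendsto (fun d : ℕ => (d.choose j : ℝ) * ((d : ℝ)⁻¹) ^ j) atTop
      (𝓝 ((j.factorial : ℝ)⁻¹)) := by
    have h2 := isEquivalent_choose j
    have h3 := h2.mul (Asymptotics.IsEquivalent.refl (u := fun d : ℕ => ((d : ℝ)⁻¹) ^ j))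
    refine (h3.tendsto_nhds_iff).2 ?_
    refine (tendsto_const_nhds (x := (j.factorial : ℝ)⁻¹)).congr' ?_
    filter_upwards [eventually_gt_atTop 0] with d hd
    have hd0 : (d : ℝ) ≠ 0 := by exact_mod_cast hd.ne'
    simp only [Pi.mul_apply]
    rw [inv_pow]
    field_simp
  have h2 := h1.mul_const (gam (n + j))
  have e : cZ n j = (j.factorial : ℝ)⁻¹ * gam (n + j) := by
    unfold cZ
    rw [div_eq_inv_mul]
  rw [e]
  refine h2.congr' ?_
  filter_upwards [eventually_ge_atTop j] with d hd
  rw [hcoef, if_pos hd]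
  ring

/-- All minors nonnegative imply the Riemann hypothesis. -/
theorem RH_of_TP (hTP : ∀ m, TP m (cZ 0)) : RiemannHypothesis := by
  have hz : ∀ w : ℂ, FF w = 0 → w.im = 0 := fun w hw =>
    (zeros_of_TP hTP Pool.Agent.H24R2.JP.b1.1 (fun x => by
      have := hasSum_iter 0 x
      rwa [iteratedDeriv_zero] at this) ⟨0, (cZ_pos 0 0).ne'⟩ w hw).1
  refine Pool.Agent.H24R2.JP.rh2T fun d => ?_
  intro z hzz
  rw [jenEval Pool.Agent.H24R2.JP.b1] at hzz
  refine Pool.Agent.H24R2.JP.jensenT FF Pool.Agent.H24R2.JP.goodT 0 d ((d : ℝ) + 1) (by positivity) ?_ ?_ z hzz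
  · have : (0 : ℝ) ≤ d := Nat.cast_nonneg d
    nlinarith
  · intro w _ hw
    rw [iteratedDeriv_zero] at hw
    exact hz w hw

end Run7.h402.TP3
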